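import Pool.Agent.helper73.AD.Basic

/-!
Module LG of project ad: an independent isotropic family of full size spans its own orthogonal.
-/

namespace Pool.Agent.helper73.AD

open scoped BigOperators Topology

/-- the pairings with the vectors e k -/
noncomputable def LG_map {J K : Type} [Fintype J] (e : K → PS J) : PS J →ₗ[ℝ] (K → ℝ) where
  toFun x := fun k => om (e k) x
  map_add' x y := by
    funext k
    exact om_add_right _ _ _
  map_smul' c x := by
    funext k
    exact om_smul_right _ _ _

theorem LG_surj {J K : Type} [Fintype J] [DecidableEq J] [Fintype K] [DecidableEq K]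
    (e : K → PS J) (h : LinearIndependent ℝ e) : Function.Surjective (LG_map e) := by
  rw [← LinearMap.dualMap_injective_iff, injective_iff_map_eq_zero]
  intro l hl
  have h1 : ∀ c : K → ℝ, l c = ∑ k, c k * l (Pi.single k 1) := by
    intro c
    conv_lhs => rw [show c = ∑ k, c k • (Pi.single k (1 : ℝ) : K → ℝ) by
      ext j; simp [Finset.sum_apply, Pi.single_apply]]
    rw [map_sum]
    exact Finset.sum_congr rfl fun k _ => by rw [map_smul, smul_eq_mul]
  have h2 : (∑ k, l (Pi.single k 1) • e k) = 0 := by
    refine eq_zero_of_om _ fun y => ?_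
    rw [om_sum_left]
    have h3 : l (LG_map e y) = 0 := by
      have := congrArg (fun f => f y) hl
      simpa using this
    rw [h1] at h3
    rw [← h3]
    refine Finset.sum_congr rfl fun k _ => ?_
    rw [om_smul_left, mul_comm]
    rfl
  have h4 := Fintype.linearIndependent_iff.1 h _ h2
  ext k
  simpa using h4 k

theorem LG : LG_stmt := by
  intro J K _ _ _ _ e hcard hiso hind x hx
  have hle : Submodule.span ℝ (Set.range e) ≤ LinearMap.ker (LG_map e) := by
    rw [Submodule.span_le]
    rintro _ ⟨m, rfl⟩
    rw [SetLike.mem_coe, LinearMap.mem_ker]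
    funext k
    exact hiso k m
  have h1 : Module.finrank ℝ (Submodule.span ℝ (Set.range e)) = Fintype.card K :=
    finrank_span_eq_card hind
  have h2 := LinearMap.finrank_range_add_finrank_ker (LG_map e)
  rw [LinearMap.range_eq_top.2 (LG_surj e hind), finrank_top, Module.finrank_prod,
    Module.finrank_fintype_fun_eq_card, Module.finrank_fintype_fun_eq_card] at h2
  have h3 : Submodule.span ℝ (Set.range e) = LinearMap.ker (LG_map e) :=
    Submodule.eq_of_le_of_finrank_eq hle (by omega)
  have h4 : x ∈ Submodule.span ℝ (Set.range e) := by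
    rw [h3, LinearMap.mem_ker]
    funext k
    exact hx k
  obtain ⟨c, hc⟩ := (Submodule.mem_span_range_iff_exists_fun ℝ).1 h4
  exact ⟨c, hc.symm⟩

end Pool.Agent.helper73.AD
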